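import Mathlib
import Pool.Agent.H16.PatMat

set_option autoImplicit false

namespace Pool.Agent.Results.MP_b7336c_co.Full

open Pool.Agent.H16.PatMat

/-- `M_n ^ (2 ^ n) ≡ I + E_{N,1}` modulo two, entrywise, for `N = 2 ^ 2 ^ n`. -/
theorem result (n : ℕ) (_hn : 1 ≤ n) (i j : Fin (2 ^ 2 ^ n)) :
    (M n ^ 2 ^ n) i j ≡ (1 + E n) i j [ZMOD 2] :=
  main n i j

end Pool.Agent.Results.MP_b7336c_co.Full
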